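import Mathlib
import Pool.Agent.H457Adm.Defs
import Pool.Agent.H457Adm.Upper

/-!
# Infinite admissible sets: gap functions smaller than the critical power

The construction of `Pool.Agent.H457Adm.Upper` (an admissible set for every sequence of sizes
`p j`) for general gap functions, and sizes `p j = 2 ^ ⌊10 λ ^ j - μ ^ j⌋` for which the gaps are at
most `n ^ c* exp (- (log n) ^ γ)`.
-/

set_option autoImplicit false

namespace Pool.Agent.Y30.CG

open Finset Pool.Agent.H457Adm Pool.Agent.H457Adm.Upper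

/-- there is an infinite admissible set, enumerated increasingly (`a n` is its element number
`n + 1`), all of whose late gaps `a_{n+1} - a_n` are at most `φ (n + 1)` -/
def GapBound (φ : ℕ → ℝ) : Prop :=
  ∃ a : ℕ → ℕ, (∀ n, 1 ≤ a n) ∧ StrictMono a ∧ Admissible (Set.range a) ∧
    ∃ n₀ : ℕ, ∀ n : ℕ, n₀ ≤ n → (a (n + 1) : ℝ) - (a n : ℝ) ≤ φ (n + 1)

lemma gap_of {A : Set ℕ} (hadm : Admissible A) (hpos : ∀ x ∈ A, 1 ≤ x)
    (hinf : A.Infinite) {φ : ℕ → ℝ} (hφ : ∀ m n : ℕ, 3 ≤ m → m ≤ n → φ m ≤ φ n) (x₀ : ℕ)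
    (h : ∀ x ∈ A, x₀ ≤ x → ∃ y ∈ A, x < y ∧ ∃ F : Finset ℕ, (∀ z ∈ F, z ∈ A ∧ z ≤ x) ∧
      3 ≤ F.card ∧ (y : ℝ) - x ≤ φ F.card) : GapBound φ := by
  classical
  have hinf' : (Set.ofPred (· ∈ A)).Infinite := hinf
  have hmono : StrictMono (Nat.nth (· ∈ A)) := Nat.nth_strictMono hinf'
  have hrange : Set.range (Nat.nth (· ∈ A)) = A := Nat.range_nth_of_infinite hinf'
  have hmem : ∀ n, Nat.nth (· ∈ A) n ∈ A := fun n => Nat.nth_mem_of_infinite hinf' n
  refine ⟨Nat.nth (· ∈ A), fun n => hpos _ (hmem n), hmono, by rw [hrange]; exact hadm, x₀, ?_⟩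
  intro n hn
  obtain ⟨y, hyA, hxy, F, hF, hF3, hle⟩ := h _ (hmem n) (hn.trans (hmono.le_apply))
  obtain ⟨m, rfl⟩ : ∃ m, Nat.nth (· ∈ A) m = y := by
    have : y ∈ Set.range (Nat.nth (· ∈ A)) := by rw [hrange]; exact hyA
    exact this
  have hnm : n + 1 ≤ m := hmono.lt_iff_lt.mp hxy
  have h1 : Nat.nth (· ∈ A) (n + 1) ≤ Nat.nth (· ∈ A) m := hmono.monotone hnm
  have h2 : F ⊆ (range (n + 1)).image (Nat.nth (· ∈ A)) := by
    intro z hz
    obtain ⟨hzA, hzx⟩ := hF z hz
    obtain ⟨l, rfl⟩ : ∃ l, Nat.nth (· ∈ A) l = z := by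
      have : z ∈ Set.range (Nat.nth (· ∈ A)) := by rw [hrange]; exact hzA
      exact this
    have : l ≤ n := hmono.le_iff_le.mp hzx
    exact mem_image.mpr ⟨l, mem_range.mpr (by omega), rfl⟩
  have h3 : F.card ≤ n + 1 := by
    calc F.card ≤ _ := card_le_card h2
      _ ≤ (range (n + 1)).card := card_image_le
      _ = n + 1 := card_range _
  calc ((Nat.nth (· ∈ A) (n + 1) : ℕ) : ℝ) - (Nat.nth (· ∈ A) n : ℕ)
      ≤ ((Nat.nth (· ∈ A) m : ℕ) : ℝ) - (Nat.nth (· ∈ A) n : ℕ) := by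
        have : ((Nat.nth (· ∈ A) (n + 1) : ℕ) : ℝ) ≤ (Nat.nth (· ∈ A) m : ℕ) := by
          exact_mod_cast h1
        linarith
    _ ≤ φ F.card := hle
    _ ≤ φ (n + 1) := hφ _ _ hF3 h3

section gaps

variable (p : ℕ → ℕ) (hp : ∀ j, 0 < p j) (hp2 : ∀ j, 4 * p j ^ 2 ≤ p (j + 1))

include hp hp2

theorem gap_of_growth {φ : ℕ → ℝ} (hφ : ∀ m n : ℕ, 3 ≤ m → m ≤ n → φ m ≤ φ n) (j₀ : ℕ)
    (hG : ∀ j, j₀ ≤ j → ((M p j * (2 * p j ^ 2) : ℕ) : ℝ) ≤ φ (p j))
    (hM : ∀ j, j₀ ≤ j → ((M p (j + 1) : ℕ) : ℝ) ≤ φ (p j ^ 2)) : GapBound φ := by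
  have hbig : ∀ j, 1 ≤ j → 3 ≤ p j := by
    intro j hj
    have h5 := hp2 (j - 1)
    have h6 : j - 1 + 1 = j := by omega
    rw [h6] at h5
    have h7 := hp (j - 1)
    have : 1 ≤ p (j - 1) ^ 2 := Nat.one_le_pow _ _ h7
    omega
  have hbig2 : ∀ j, 1 ≤ j → 3 ≤ p j ^ 2 := by
    intro j hj
    have := hbig j hj
    nlinarith
  apply gap_of (admissible p hp hp2) (A_pos p hp hp2) (A_infinite p hp hp2) hφ
    (b p (j₀ + 3))
  intro x hxA hx
  obtain ⟨j, hj⟩ := mem_A p hp hp2 hxA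
  have hMj := M_pos p hp j
  have hpj := hp j
  have hj₀ : j₀ + 2 ≤ j := by
    by_contra hcon
    push Not at hcon
    have h1 : x ∈ E p (j + 1) := by
      rw [E_succ]; apply mem_union_right; rw [mem_union]; exact hj
    have h2 := E_lt p hp hp2 (j + 1) x h1
    have h3 := b_mono_aux p hp hp2 (j + 1)
    have h4 : b p (j + 1 + 1) ≤ b p (j₀ + 3) := (b_strictMono p hp hp2).monotone (by omega)
    omega
  have hj1 : 1 ≤ j := by omega
  -- the gap bound inside stage j
  have hGj := hG j (by omega)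
  have hsmall : ((M p j : ℕ) : ℝ) ≤ φ (p j) := by
    refine le_trans ?_ hGj
    have : M p j ≤ M p j * (2 * p j ^ 2) := Nat.le_mul_of_pos_right _ (by positivity)
    exact_mod_cast this
  have hcast : ∀ y B : ℕ, x < y → y ≤ x + B → (y : ℝ) - x ≤ (B : ℝ) := by
    intro y B h1 h2
    have : (y : ℝ) ≤ x + B := by exact_mod_cast h2
    linarith
  have hbM : M p j * (2 * p j ^ 3) + b p j = b p (j + 1) := by
    rw [b_succ_cong p hp j]; ring
  rcases hj with hj | hj
  · unfold light at hj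
    rw [mem_union] at hj
    rcases hj with hj | hj
    · -- dense element
      obtain ⟨i, ⟨h1, h2⟩, rfl⟩ := (mem_dense p hp).mp hj
      rcases Nat.lt_or_ge i (p j) with h3 | h3
      · refine ⟨b p j + M p j * (i + 1), ?_, ?_, heavy p (j - 1), ?_, by rw [card_heavy p hp hp2]; exact hbig2 _ (by omega), ?_⟩
        · exact light_sub_A p hp hp2 (mem_union_left _
            ((mem_dense p hp).mpr ⟨i + 1, ⟨by omega, by omega⟩, rfl⟩))
        · have : M p j * (i + 1) = M p j * i + M p j := by ring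
          omega
        · intro z hz
          refine ⟨heavy_sub_A p hp hp2 hz, ?_⟩
          have h4 := heavy_lt p hp hp2 hz
          have h5 : j - 1 + 1 = j := by omega
          rw [h5] at h4
          have h6 : M p j ≤ M p j * i := Nat.le_mul_of_pos_right _ (by omega)
          omega
        · rw [card_heavy p hp hp2]
          have h7 := hM (j - 1) (by omega)
          have h5 : j - 1 + 1 = j := by omega
          rw [h5] at h7
          refine le_trans ?_ h7
          have : M p j * (i + 1) = M p j * i + M p j := by ring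
          exact hcast _ _ (by omega) (by omega)
      · have h4 : i = p j := by omega
        subst h4
        have hp1 : 1 < p j := by
          have h5 := hp2 (j - 1)
          have h6 : j - 1 + 1 = j := by omega
          rw [h6] at h5
          have h7 := hp (j - 1)
          have : 1 ≤ p (j - 1) ^ 2 := Nat.one_le_pow _ _ h7
          omega
        have h8 : M p j * p j < M p j * (2 * p j ^ 2 * 1) := by
          apply Nat.mul_lt_mul_of_pos_left _ hMj
          nlinarith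
        refine ⟨b p j + M p j * (2 * p j ^ 2 * 1), ?_, ?_, dense p j, ?_, by rw [card_dense p hp hp2]; exact hbig _ hj1, ?_⟩
        · exact light_sub_A p hp hp2 (mem_union_right _
            ((mem_filler p hp).mpr ⟨1, ⟨le_refl _, hp1⟩, rfl⟩))
        · omega
        · intro z hz
          exact dense_le p hp hp2 hz
        · rw [card_dense p hp hp2]
          refine le_trans ?_ hGj
          apply hcast _ _ (by omega)
          rw [mul_one]; omega
    · -- filler
      obtain ⟨i, ⟨h1, h2⟩, rfl⟩ := (mem_filler p hp).mp hj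
      have hF : ∀ z ∈ dense p j, z ∈ A p ∧ z ≤ b p j + M p j * (2 * p j ^ 2 * i) := by
        intro z hz
        obtain ⟨h3, h4⟩ := dense_le p hp hp2 hz
        refine ⟨h3, h4.trans ?_⟩
        have : M p j * p j ≤ M p j * (2 * p j ^ 2 * i) := by
          apply Nat.mul_le_mul_left
          calc p j ≤ p j ^ 2 := Nat.le_self_pow (by norm_num) _
            _ ≤ p j ^ 2 * (2 * i) := Nat.le_mul_of_pos_right _ (by omega)
            _ = 2 * p j ^ 2 * i := by ring
        omega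
      have h5 : M p j * (2 * p j ^ 2 * (i + 1))
          = M p j * (2 * p j ^ 2 * i) + M p j * (2 * p j ^ 2) := by ring
      have h6 : 0 < M p j * (2 * p j ^ 2) := by positivity
      refine ⟨b p j + M p j * (2 * p j ^ 2 * (i + 1)), ?_, by omega, dense p j, hF, by rw [card_dense p hp hp2]; exact hbig _ hj1, ?_⟩
      · rcases Nat.lt_or_ge (i + 1) (p j) with h3 | h3
        · exact light_sub_A p hp hp2 (mem_union_right _
            ((mem_filler p hp).mpr ⟨i + 1, ⟨by omega, h3⟩, rfl⟩))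
        · have h4 : i + 1 = p j := by omega
          rw [h4]
          have : b p j + M p j * (2 * p j ^ 2 * p j) = b p (j + 1) := by
            rw [← hbM]; ring
          rw [this]
          exact heavy_sub_A p hp hp2 (b_mem_heavy p hp hp2 j)
      · rw [card_dense p hp hp2]
        refine le_trans ?_ hGj
        exact hcast _ _ (by omega) (by omega)
  · -- heavy
    obtain ⟨i, h1, rfl⟩ := (mem_heavy p hp).mp hj
    rcases Nat.lt_or_ge (i + 1) (p j ^ 2) with h3 | h3
    · have h5 : M p j * (i + 1) = M p j * i + M p j := by ring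
      refine ⟨b p (j + 1) + M p j * (i + 1), ?_, by omega, dense p j, ?_, by rw [card_dense p hp hp2]; exact hbig _ hj1, ?_⟩
      · exact heavy_sub_A p hp hp2 ((mem_heavy p hp).mpr ⟨i + 1, h3, rfl⟩)
      · intro z hz
        obtain ⟨h6, -⟩ := dense_le p hp hp2 hz
        have h7 := (light_bounds p hp (mem_union_left _ hz : z ∈ light p j)).2
        exact ⟨h6, by omega⟩
      · rw [card_dense p hp hp2]
        refine le_trans ?_ hsmall
        exact hcast _ _ (by omega) (by omega)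
    · have h4 : i + 1 = p j ^ 2 := by omega
      have h5 := heavy_lt p hp hp2 hj
      refine ⟨b p (j + 1) + M p (j + 1) * 1, ?_, by omega, heavy p j, ?_, by rw [card_heavy p hp hp2]; exact hbig2 _ hj1, ?_⟩
      · exact light_sub_A p hp hp2 (mem_union_left _
          ((mem_dense p hp).mpr ⟨1, ⟨le_refl _, hp (j + 1)⟩, rfl⟩))
      · intro z hz
        refine ⟨heavy_sub_A p hp hp2 hz, ?_⟩
        obtain ⟨i', h6, rfl⟩ := (mem_heavy p hp).mp hz
        have := Nat.mul_le_mul_left (M p j) (show i' ≤ i by omega)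
        omega
      · rw [card_heavy p hp hp2]
        refine le_trans ?_ (hM j (by omega))
        exact hcast _ _ (by omega) (by omega)

end gaps

/-! ### sizes -/

/-- sizes given by exponents -/
lemma b_pow (e : ℕ → ℕ) (j : ℕ) :
    b (fun i => 2 ^ e i) j ≤ 2 ^ (∑ i ∈ range j, (4 * e i + 5)) := by
  induction j with
  | zero => simp [b]
  | succ j ih =>
    rw [b_succ, sum_range_succ, pow_add]
    apply Nat.mul_le_mul ih
    have h1 : 1 ≤ (2 ^ e j) ^ 4 := Nat.one_le_pow _ _ (by positivity)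
    calc 1 + 16 * (2 ^ e j) ^ 4 ≤ 32 * (2 ^ e j) ^ 4 := by omega
      _ = 2 ^ (4 * e j + 5) := by rw [pow_add, ← pow_mul]; ring

/-- the gap function -/
noncomputable def gf (γ : ℝ) (n : ℕ) : ℝ :=
  (n : ℝ) ^ ((5 + √17) / 2) * Real.exp (-(Real.log n) ^ γ)

lemma gf_two_pow (γ : ℝ) (e : ℕ) : gf γ (2 ^ e) =
    Real.exp ((5 + √17) / 2 * (e * Real.log 2) - (e * Real.log 2) ^ γ) := by
  unfold gf
  have h1 : Real.log ((2 ^ e : ℕ) : ℝ) = e * Real.log 2 := by
    push_cast
    rw [Real.log_pow]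
  rw [h1, Real.rpow_def_of_pos (by positivity), h1, ← Real.exp_add]
  congr 1
  ring

lemma rpow_sub_le {γ x y : ℝ} (h0 : 0 < γ) (h1 : γ ≤ 1) (hy : 1 ≤ y) (hxy : y ≤ x) :
    x ^ γ - y ^ γ ≤ x - y := by
  have hy0 : 0 < y := by linarith
  have hx0 : 0 < x := by linarith
  have h2 : x ^ γ = y ^ γ * (x / y) ^ γ := by
    rw [← Real.mul_rpow hy0.le (by positivity)]
    congr 1
    field_simp
  have h3 : (x / y) ^ γ ≤ (x / y) := by
    have : 1 ≤ x / y := by rw [le_div_iff₀ hy0]; linarith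
    calc (x / y) ^ γ ≤ (x / y) ^ (1 : ℝ) := Real.rpow_le_rpow_of_exponent_le this h1
      _ = _ := Real.rpow_one _
  have h4 : y ^ γ ≤ y := by
    calc y ^ γ ≤ y ^ (1 : ℝ) := Real.rpow_le_rpow_of_exponent_le hy h1
      _ = _ := Real.rpow_one _
  have h5 : 0 ≤ y ^ γ := by positivity
  have h6 : 0 ≤ x / y - 1 := by
    rw [sub_nonneg, le_div_iff₀ hy0]; linarith
  calc x ^ γ - y ^ γ = y ^ γ * ((x / y) ^ γ - 1) := by rw [h2]; ring
    _ ≤ y ^ γ * (x / y - 1) := mul_le_mul_of_nonneg_left (by linarith) h5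
    _ ≤ y * (x / y - 1) := mul_le_mul_of_nonneg_right h4 h6
    _ = x - y := by field_simp

lemma gf_mono {γ : ℝ} (h0 : 0 < γ) (h1 : γ ≤ 1) (m n : ℕ) (hm : 3 ≤ m) (hmn : m ≤ n) :
    gf γ m ≤ gf γ n := by
  have hm' : (0 : ℝ) < m := by exact_mod_cast (by omega : 0 < m)
  have hn' : (0 : ℝ) < n := by exact_mod_cast (by omega : 0 < n)
  have hlog : 1 ≤ Real.log m := by
    rw [Real.le_log_iff_exp_le hm']
    have h3 : (3 : ℝ) ≤ m := by exact_mod_cast hm
    have := Real.exp_one_lt_d9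
    linarith
  have hlog2 : Real.log m ≤ Real.log n := Real.log_le_log hm' (by exact_mod_cast hmn)
  unfold gf
  rw [Real.rpow_def_of_pos hm', Real.rpow_def_of_pos hn', ← Real.exp_add, ← Real.exp_add]
  apply Real.exp_le_exp.mpr
  have h2 := rpow_sub_le h0 h1 hlog hlog2
  have h3 : 0 ≤ √17 := Real.sqrt_nonneg _
  have h4 : 0 ≤ Real.log n - Real.log m := by linarith
  nlinarith

/-- eventually -/
lemma eventually_pow {ν μ δ K : ℝ} (hν : 0 ≤ ν) (hνμ : ν < μ) (hμ : 1 < μ) (hδ : 0 < δ) :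
    ∀ᶠ j : ℕ in Filter.atTop, K * ν ^ j + 5 * j + K ≤ δ * μ ^ j := by
  have o1 : (fun j : ℕ => K * ν ^ j) =o[Filter.atTop] (fun j : ℕ => μ ^ j) :=
    (isLittleO_pow_pow_of_lt_left hν hνμ).const_mul_left K
  have o2 : (fun j : ℕ => 5 * (j : ℝ)) =o[Filter.atTop] (fun j : ℕ => μ ^ j) :=
    (isLittleO_coe_const_pow_of_one_lt hμ).const_mul_left 5
  have o3 : (fun _ : ℕ => K) =o[Filter.atTop] (fun j : ℕ => μ ^ j) := by
    have := (isLittleO_pow_pow_of_lt_left zero_le_one hμ).const_mul_left K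
    simpa using this
  have o := (o1.add o2).add o3
  have h := o.def hδ
  filter_upwards [h] with j hj
  have hμ0 : 0 < μ := by linarith
  have hμj : 0 < μ ^ j := by positivity
  rw [Real.norm_eq_abs, Real.norm_eq_abs, abs_of_pos hμj] at hj
  exact (le_abs_self _).trans hj

theorem critical {γ : ℝ} (h0 : 0 < γ)
    (h1 : γ < Real.log ((1 + √17) / 2) / Real.log ((3 + √17) / 2)) : GapBound (gf γ) := by
  have hs1 := sqrt17_lt
  have hs2 := sqrt17_gt
  have hs : √17 * √17 = 17 := Real.mul_self_sqrt (by norm_num)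
  obtain ⟨s, hsdef⟩ : ∃ s, s = √17 := ⟨_, rfl⟩
  rw [← hsdef] at hs1 hs2 hs h1
  obtain ⟨lam, hlam⟩ : ∃ lam, lam = (3 + s) / 2 := ⟨_, rfl⟩
  obtain ⟨c, hc⟩ : ∃ c, c = (5 + s) / 2 := ⟨_, rfl⟩
  have hl1 : 3.56 < lam := by rw [hlam]; linarith
  have hl2 : lam < 3.563 := by rw [hlam]; linarith
  have hloglam : 0 < Real.log lam := Real.log_pos (by linarith)
  rw [← hlam, lt_div_iff₀ hloglam] at h1
  have hγ1 : γ ≤ 1 := by
    have h2 : Real.log ((1 + s) / 2) ≤ Real.log lam :=
      Real.log_le_log (by linarith) (by rw [hlam]; linarith)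
    by_contra hcon
    push Not at hcon
    nlinarith
  -- the second rate
  have hν : lam ^ γ < (1 + s) / 2 := by
    rw [Real.rpow_def_of_pos (by linarith), ← Real.lt_log_iff_exp_lt (by linarith)]
    linarith
  obtain ⟨μ, hμ1, hμ2⟩ := exists_between hν
  obtain ⟨ν, hνdef⟩ : ∃ ν, ν = lam ^ γ := ⟨_, rfl⟩
  rw [← hνdef] at hμ1
  have hν1 : 1 < ν := by
    rw [hνdef]
    exact Real.one_lt_rpow (by linarith) h0
  have hμ0 : 1 < μ := by linarith
  have hμlam : μ < lam := by rw [hlam]; linarith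
  -- the exponents
  obtain ⟨E, hE⟩ : ∃ E : ℕ → ℝ, E = fun j => 10 * lam ^ j - μ ^ j := ⟨_, rfl⟩
  obtain ⟨e, he⟩ : ∃ e : ℕ → ℕ, e = fun j => ⌊E j⌋₊ := ⟨_, rfl⟩
  have hμj : ∀ j : ℕ, μ ^ j ≤ lam ^ j := fun j => pow_le_pow_left₀ (by linarith) hμlam.le j
  have hlj : ∀ j : ℕ, 1 ≤ lam ^ j := fun j => one_le_pow₀ (by linarith)
  have hμj1 : ∀ j : ℕ, 1 ≤ μ ^ j := fun j => one_le_pow₀ (by linarith)
  have hE9 : ∀ j, 9 * lam ^ j ≤ E j := by
    intro j
    rw [hE]
    have := hμj j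
    simp only
    linarith
  have hE0 : ∀ j, 0 ≤ E j := fun j => by
    have := hE9 j
    have := hlj j
    linarith
  have he1 : ∀ j, (e j : ℝ) ≤ E j := fun j => by rw [he]; exact Nat.floor_le (hE0 j)
  have he2 : ∀ j, E j - 1 < e j := fun j => by
    rw [he]
    have := Nat.lt_floor_add_one (E j)
    simp only
    linarith
  -- growth
  have hgrow : ∀ j, 2 * e j + 2 ≤ e (j + 1) := by
    intro j
    have h2 := he1 j
    have h3 := he2 (j + 1)
    have h4 : 2 * E j + 2 ≤ E (j + 1) - 1 := by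
      rw [hE]
      simp only [pow_succ]
      have h5 := hμj j
      have h6 := hlj j
      have h7 := hμj1 j
      nlinarith
    have h5 : ((2 * e j + 2 : ℕ) : ℝ) ≤ ((e (j + 1) : ℕ) : ℝ) := by
      push_cast
      linarith
    exact_mod_cast h5
  -- the sums
  have hc3 : (c - 3) * (lam - 1) = 4 := by
    rw [hc, hlam]; nlinarith
  have hc2 : (c - 2) * lam = 2 * c := by
    rw [hc, hlam]; nlinarith
  obtain ⟨κ, hκ⟩ : ∃ κ, κ = 4 / (μ - 1) := ⟨_, rfl⟩
  have hκ1 : κ * (μ - 1) = 4 := by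
    rw [hκ]; exact div_mul_cancel₀ _ (by linarith : μ - 1 ≠ 0)
  have hκ0 : 0 < κ := by rw [hκ]; exact div_pos (by norm_num) (by linarith)
  have hsum : ∀ j : ℕ, ((∑ i ∈ range j, (4 * e i + 5) : ℕ) : ℝ) ≤
      10 * (c - 3) * (lam ^ j - 1) - κ * (μ ^ j - 1) + 5 * j := by
    intro j
    induction j with
    | zero => simp
    | succ j ih =>
      rw [sum_range_succ]
      push_cast at ih ⊢
      have h2 := he1 j
      rw [hE] at h2
      simp only at h2
      have e1 : 10 * (c - 3) * (lam ^ (j + 1) - 1) =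
          10 * (c - 3) * (lam ^ j - 1) + 40 * lam ^ j := by
        rw [pow_succ]
        linear_combination 10 * lam ^ j * hc3
      have e2 : κ * (μ ^ (j + 1) - 1) = κ * (μ ^ j - 1) + 4 * μ ^ j := by
        rw [pow_succ]
        linear_combination μ ^ j * hκ1
      rw [e1, e2]
      linarith
  have hδ2 : 0 < κ - (c - 3) := by
    by_contra hcon
    push Not at hcon
    have h2 : κ * (μ - 1) ≤ (c - 3) * (μ - 1) :=
      mul_le_mul_of_nonneg_right (by linarith) (by linarith)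
    have h3 : (c - 3) * (μ - 1) < (c - 3) * (lam - 1) :=
      mul_lt_mul_of_pos_left (by linarith) (by rw [hc]; linarith)
    linarith
  have hδ1 : 0 < κ * μ + μ - 2 * c := by
    have h2 : 0 < (κ * μ + μ - 2 * c) * (μ - 1) := by
      have e1 : (κ * μ + μ - 2 * c) * (μ - 1) = (μ - 1) ^ 2 - s * (μ - 1) + 4 := by
        rw [hc]
        linear_combination μ * hκ1
      rw [e1]
      have h3 : 0 < ((s - 1) / 2 - (μ - 1)) * ((s + 1) / 2 - (μ - 1)) :=
        mul_pos (by linarith) (by linarith)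
      nlinarith
    by_contra hcon
    push Not at hcon
    have := mul_nonpos_of_nonpos_of_nonneg hcon (by linarith : 0 ≤ μ - 1)
    linarith
  have hL : 0 < Real.log 2 := Real.log_pos (by norm_num)
  have hL1 : Real.log 2 ≤ 1 := by
    have := Real.log_two_lt_d9
    linarith
  -- the powers of the logarithms
  have hpow : ∀ (j : ℕ) (x : ℝ), 0 ≤ x → x ≤ 20 * lam ^ j → x ^ γ ≤ 20 * ν ^ j := by
    intro j x hx0 hx
    have hlp : (0 : ℝ) < lam ^ j := by have := hlj j; linarith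
    calc x ^ γ ≤ (20 * lam ^ j) ^ γ := Real.rpow_le_rpow hx0 hx h0.le
      _ = 20 ^ γ * (lam ^ j) ^ γ := Real.mul_rpow (by norm_num) hlp.le
      _ = 20 ^ γ * ν ^ j := by
        rw [hνdef, ← Real.rpow_natCast, ← Real.rpow_natCast, ← Real.rpow_mul (by linarith),
          ← Real.rpow_mul (by linarith), mul_comm (j : ℝ) γ]
      _ ≤ 20 * ν ^ j := by
        apply mul_le_mul_of_nonneg_right _ (by positivity)
        calc (20 : ℝ) ^ γ ≤ 20 ^ (1 : ℝ) := Real.rpow_le_rpow_of_exponent_le (by norm_num) hγ1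
          _ = 20 := Real.rpow_one _
  -- eventually
  obtain ⟨K, hK⟩ : ∃ K, K = 20 / Real.log 2 + κ + 2 * c + 8 := ⟨_, rfl⟩
  have hc45 : 4.5 < c := by rw [hc]; linarith
  have hK1 : 20 / Real.log 2 ≤ K := by rw [hK]; linarith
  have hKc : κ + 2 * c + 8 ≤ K := by
    have : 0 < 20 / Real.log 2 := by positivity
    rw [hK]; linarith
  have hνj : ∀ j : ℕ, 0 ≤ ν ^ j := fun j => by positivity
  obtain ⟨j1, hj1⟩ := Filter.eventually_atTop.mp
    (eventually_pow (K := K) (by linarith : (0 : ℝ) ≤ ν) hμ1 hμ0 hδ1)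
  obtain ⟨j2, hj2⟩ := Filter.eventually_atTop.mp
    (eventually_pow (K := K) (by linarith : (0 : ℝ) ≤ ν) hμ1 hμ0 hδ2)
  have hscale : ∀ (j : ℕ) (x : ℝ), x ≤ 20 * ν ^ j → x ≤ Real.log 2 * (K * ν ^ j) := by
    intro j x hx
    refine hx.trans ?_
    have h2 : (20 / Real.log 2) * ν ^ j ≤ K * ν ^ j := mul_le_mul_of_nonneg_right hK1 (hνj j)
    calc 20 * ν ^ j = Real.log 2 * ((20 / Real.log 2) * ν ^ j) := by field_simp
      _ ≤ _ := mul_le_mul_of_nonneg_left h2 hL.le
  have hcdef : (5 + √17) / 2 = c := by rw [hc, hsdef]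
  apply gap_of_growth (fun j => 2 ^ e j) (fun j => by positivity)
    (fun j => ?_) (fun m n hm hmn => gf_mono h0 hγ1 m n hm hmn) (max j1 j2)
  · -- gaps inside a stage
    intro j hj
    have hjj := hj2 j ((le_max_right _ _).trans hj)
    have h2 : M (fun j => 2 ^ e j) j * (2 * (2 ^ e j) ^ 2)
        ≤ 2 ^ (∑ l ∈ range j, (4 * e l + 5) + (4 + 3 * e j)) := by
      rw [pow_add]
      calc M (fun j => 2 ^ e j) j * (2 * (2 ^ e j) ^ 2)
          = b (fun j => 2 ^ e j) j * (16 * (2 ^ e j) ^ 3) := by unfold M; ring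
        _ ≤ _ := by
          apply Nat.mul_le_mul (b_pow _ _)
          rw [pow_add, ← pow_mul, mul_comm (e j) 3]
          norm_num
    have h3 : ((M (fun j => 2 ^ e j) j * (2 * (2 ^ e j) ^ 2) : ℕ) : ℝ) ≤
        Real.exp (((∑ l ∈ range j, (4 * e l + 5) + (4 + 3 * e j) : ℕ) : ℝ) * Real.log 2) := by
      have h4 : Real.exp (((∑ l ∈ range j, (4 * e l + 5) + (4 + 3 * e j) : ℕ) : ℝ) * Real.log 2)
          = ((2 ^ (∑ l ∈ range j, (4 * e l + 5) + (4 + 3 * e j)) : ℕ) : ℝ) := by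
        rw [Real.exp_nat_mul, Real.exp_log (by norm_num)]
        push_cast
        rfl
      rw [h4]
      exact_mod_cast h2
    refine h3.trans ?_
    show _ ≤ gf γ (2 ^ e j)
    rw [gf_two_pow, hcdef]
    apply Real.exp_le_exp.mpr
    have h5 := hsum j
    have h6 := he1 j
    have h7 := he2 j
    have h8 : (e j * Real.log 2 : ℝ) ^ γ ≤ 20 * ν ^ j := by
      apply hpow j _ (by positivity)
      have h9 : (e j : ℝ) * Real.log 2 ≤ e j * 1 :=
        mul_le_mul_of_nonneg_left hL1 (Nat.cast_nonneg _)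
      rw [hE] at h6
      simp only at h6
      have := hμj1 j
      have := hlj j
      linarith
    have h9 := hscale j _ h8
    rw [hE] at h7
    simp only at h7
    have h10 : (c - 3) * (10 * lam ^ j - μ ^ j - 1) ≤ (c - 3) * e j :=
      mul_le_mul_of_nonneg_left h7.le (by linarith)
    have h11 : K * ν ^ j + (((∑ l ∈ range j, (4 * e l + 5) : ℕ) : ℝ) + 4) ≤ (c - 3) * e j := by
      linarith
    have h12 : Real.log 2 * (K * ν ^ j + (((∑ l ∈ range j, (4 * e l + 5) : ℕ) : ℝ) + 4)) ≤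
        Real.log 2 * ((c - 3) * e j) := mul_le_mul_of_nonneg_left h11 hL.le
    have h13 : (((∑ l ∈ range j, (4 * e l + 5) + (4 + 3 * e j) : ℕ) : ℝ)) =
        ((∑ l ∈ range j, (4 * e l + 5) : ℕ) : ℝ) + 4 + 3 * e j := by
      push_cast
      ring
    rw [h13]
    linarith
  · -- the first gap of the next stage
    intro j hj
    have hjj := hj1 j ((le_max_left _ _).trans hj)
    have h2 : M (fun j => 2 ^ e j) (j + 1)
        ≤ 2 ^ (∑ l ∈ range (j + 1), (4 * e l + 5) + (3 + e (j + 1))) := by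
      rw [pow_add]
      calc M (fun j => 2 ^ e j) (j + 1) = b (fun j => 2 ^ e j) (j + 1) * (8 * 2 ^ e (j + 1)) := by
            unfold M; ring
        _ ≤ _ := by
          apply Nat.mul_le_mul (b_pow _ _)
          rw [pow_add]
          norm_num
    have h3 : ((M (fun j => 2 ^ e j) (j + 1) : ℕ) : ℝ) ≤
        Real.exp (((∑ l ∈ range (j + 1), (4 * e l + 5) + (3 + e (j + 1)) : ℕ) : ℝ) *
          Real.log 2) := by
      have h4 : Real.exp (((∑ l ∈ range (j + 1), (4 * e l + 5) + (3 + e (j + 1)) : ℕ) : ℝ) *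
          Real.log 2) =
            ((2 ^ (∑ l ∈ range (j + 1), (4 * e l + 5) + (3 + e (j + 1))) : ℕ) : ℝ) := by
        rw [Real.exp_nat_mul, Real.exp_log (by norm_num)]
        push_cast
        rfl
      rw [h4]
      exact_mod_cast h2
    refine h3.trans ?_
    show _ ≤ gf γ ((2 ^ e j) ^ 2)
    rw [← pow_mul, gf_two_pow, hcdef]
    apply Real.exp_le_exp.mpr
    have h5 := hsum (j + 1)
    have h6 := he1 j
    have h7 := he2 j
    have h6' := he1 (j + 1)
    have h8 : (((e j * 2 : ℕ) : ℝ) * Real.log 2 : ℝ) ^ γ ≤ 20 * ν ^ j := by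
      apply hpow j _ (by positivity)
      have h9 : ((e j * 2 : ℕ) : ℝ) * Real.log 2 ≤ ((e j * 2 : ℕ) : ℝ) * 1 :=
        mul_le_mul_of_nonneg_left hL1 (Nat.cast_nonneg _)
      push_cast at h9 ⊢
      rw [hE] at h6
      simp only at h6
      have := hμj1 j
      have := hlj j
      linarith
    have h9 := hscale j _ h8
    rw [hE] at h7 h6'
    simp only at h7 h6'
    have h10 : (2 * c) * (10 * lam ^ j - μ ^ j - 1) ≤ (2 * c) * e j :=
      mul_le_mul_of_nonneg_left h7.le (by linarith)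
    have h11 : K * ν ^ j + (((∑ l ∈ range (j + 1), (4 * e l + 5) : ℕ) : ℝ) + 3 + e (j + 1)) ≤
        (2 * c) * e j := by
      have e1 : 10 * (c - 3) * (lam ^ (j + 1) - 1) + 10 * lam ^ (j + 1) =
          20 * c * lam ^ j - 10 * (c - 3) := by
        rw [pow_succ]
        linear_combination 10 * lam ^ j * hc2
      have e2 : κ * (μ ^ (j + 1) - 1) + μ ^ (j + 1) = (κ * μ + μ) * μ ^ j - κ := by
        rw [pow_succ]
        ring
      push_cast at h5 ⊢
      linarith
    have h12 : Real.log 2 * (K * ν ^ j + (((∑ l ∈ range (j + 1), (4 * e l + 5) : ℕ) : ℝ) + 3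
        + e (j + 1))) ≤ Real.log 2 * ((2 * c) * e j) := mul_le_mul_of_nonneg_left h11 hL.le
    have h13 : (((∑ l ∈ range (j + 1), (4 * e l + 5) + (3 + e (j + 1)) : ℕ) : ℝ)) =
        ((∑ l ∈ range (j + 1), (4 * e l + 5) : ℕ) : ℝ) + 3 + e (j + 1) := by
      push_cast
      ring
    rw [h13]
    push_cast at h9 h12 ⊢
    linarith
  · -- growth
    show 4 * (2 ^ e j) ^ 2 ≤ 2 ^ e (j + 1)
    calc 4 * (2 ^ e j) ^ 2 = 2 ^ (2 * e j + 2) := by rw [pow_add, mul_comm 2 (e j), pow_mul]; ring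
      _ ≤ 2 ^ e (j + 1) := Nat.pow_le_pow_right (by norm_num) (hgrow j)

end Pool.Agent.Y30.CG
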